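import Pool.Agent.Q226.SCP.Geo
import Pool.Agent.Q226.SF.Lin

set_option autoImplicit false

/-!
# Linear maps compatible with the Frobenius endomorphisms
-/

namespace Pool.Agent.Q226.SCP

variable {E : Type} [Field E] {G : GeoP E}

/-- `H²(X̄)` embeds in `H²(Ȳ)`, compatibly with the Frobenius endomorphisms over a common finite
extension of the two finite fields. -/
def GeoP.Embeds (G : GeoP E) (X Y : G.Var) : Prop :=
  ∃ w : G.H 2 X →ₗ[E] G.H 2 Y, Function.Injective w ∧ G.Comp w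

theorem pow_comm {X Y : G.Var} {w : G.H 2 X →ₗ[E] G.H 2 Y} {a b : ℕ}
    (h : ∀ c, w ((G.Fr 2 X ^ a) c) = (G.Fr 2 Y ^ b) (w c)) (m : ℕ) (c : G.H 2 X) :
    w ((G.Fr 2 X ^ (a * m)) c) = (G.Fr 2 Y ^ (b * m)) (w c) := by
  induction m generalizing c with
  | zero => simp
  | succ m ih =>
    rw [Nat.mul_succ, Nat.mul_succ, pow_add, pow_add, Module.End.mul_apply, Module.End.mul_apply,
      ih, h]

theorem GeoP.Comp.trans {X Y Z : G.Var} {w : G.H 2 X →ₗ[E] G.H 2 Y} {v : G.H 2 Y →ₗ[E] G.H 2 Z}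
    (hw : G.Comp w) (hv : G.Comp v) : G.Comp (v.comp w) := by
  obtain ⟨a, b, ha, hb, hq, h⟩ := hw
  obtain ⟨c, d, hc, hd, hq', h'⟩ := hv
  refine ⟨a * c, d * b, Nat.mul_pos ha hc, Nat.mul_pos hd hb, ?_, fun x => ?_⟩
  · rw [pow_mul, hq, ← pow_mul, mul_comm b c, pow_mul, hq', ← pow_mul]
  · rw [LinearMap.comp_apply, pow_comm h c x, LinearMap.comp_apply, mul_comm b c,
      pow_comm h' b (w x)]

theorem GeoP.IsFrobenius.pull {X Y : G.Var} (hG : G.IsFrobenius) (g : G.Mor X Y) :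
    G.Comp (G.pull 2 g) := by
  have h := hG.comp 1 (fun _ => g)
  simpa using h

/-- A compatible map lifts along an injective compatible map if its image is contained. -/
theorem GeoP.Comp.lift {X Y Z : G.Var} {w : G.H 2 X →ₗ[E] G.H 2 Z}
    {v : G.H 2 Y →ₗ[E] G.H 2 Z} (hw : G.Comp w) (hv : G.Comp v) (hi : Function.Injective v)
    (hr : ∀ c, ∃ y, v y = w c) :
    ∃ u : G.H 2 X →ₗ[E] G.H 2 Y, G.Comp u ∧ ∀ c, v (u c) = w c := by
  choose θ hθ using hr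
  obtain ⟨a, b, ha, hb, hq, h⟩ := hw
  obtain ⟨c, d, hc, hd, hq', h'⟩ := hv
  refine ⟨{ toFun := θ, map_add' := fun x y => hi ?_, map_smul' := fun t x => hi ?_ }, ?_,
    fun c => hθ c⟩
  · rw [map_add, hθ, hθ, hθ, map_add]
  · rw [hθ, RingHom.id_apply, map_smul, map_smul, hθ]
  · refine ⟨a * d, c * b, Nat.mul_pos ha hd, Nat.mul_pos hc hb, ?_, fun x => hi ?_⟩
    · rw [pow_mul, hq, ← pow_mul, mul_comm b d, pow_mul, ← hq', ← pow_mul]
    · show v (θ ((G.Fr 2 X ^ (a * d)) x)) = v ((G.Fr 2 Y ^ (c * b)) (θ x))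
      rw [hθ, pow_comm h d x, pow_comm h' b (θ x), hθ, mul_comm b d]

theorem GeoP.Embeds.refl (X : G.Var) : G.Embeds X X :=
  ⟨LinearMap.id, Function.injective_id, 1, 1, one_pos, one_pos, rfl, fun _ => rfl⟩

theorem GeoP.Embeds.trans {X Y Z : G.Var} (h : G.Embeds X Y) (h' : G.Embeds Y Z) :
    G.Embeds X Z := by
  obtain ⟨w, hi, hw⟩ := h
  obtain ⟨v, hj, hv⟩ := h'
  exact ⟨v.comp w, hj.comp hi, hw.trans hv⟩

theorem GeoP.Inj.injective {X Y : G.Var} {g : G.Mor X Y} (h : G.Inj g) :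
    Function.Injective (G.pull 2 g) := by
  rw [injective_iff_map_eq_zero]
  exact h

theorem GeoP.Inj.embeds (hG : G.IsFrobenius) {X Y : G.Var} {g : G.Mor X Y} (h : G.Inj g) :
    G.Embeds Y X := by
  obtain ⟨a, b, ha, hb, hq, hc⟩ := hG.pull g
  exact ⟨G.pull 2 g, h.injective, a, b, ha, hb, hq, hc⟩

/-- The Frobenius acts semisimply on `H²(X̄, ℚ_ℓ)`. -/
def GeoP.SS (G : GeoP E) (X : G.Var) : Prop := (G.Fr 2 X).IsSemisimple

/-- Semisimplicity passes to `X` if `H²(X̄)` embeds in `H²(Ȳ)`. -/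
theorem GeoP.Embeds.ss [CharZero E] (hG : G.IsFrobenius) {X Y : G.Var} (h : G.Embeds X Y)
    (hY : G.SS Y) : G.SS X := by
  obtain ⟨w, hi, a, b, ha, hb, -, hc⟩ := h
  have := hG.finite X
  have := hG.finite Y
  have h1 : (G.Fr 2 Y ^ b).IsSemisimple := Module.End.IsSemisimple.pow hY b
  have h2 : (G.Fr 2 X ^ a).IsSemisimple :=
    Pool.Agent.Q226.SF.semisimple_inj w hi hc h1
  exact Pool.Agent.Q226.SF.semisimple_root (hG.inj X) ha h2

end Pool.Agent.Q226.SCP
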