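import Mathlib

set_option autoImplicit false

/-!
# Varieties over finite fields, `ℓ`-adic cohomology with Frobenius, and fibres of sums of Albanese maps
-/

namespace Pool.Agent.Q226.SCP

/-- The geometrically connected normal projective varieties over the finite fields of a given
characteristic `p`, with their `ℓ`-adic cohomology, `ℓ ≠ p`, as far as it is used here; `E` is the
field of `ℓ`-adic numbers. For a variety `X` over `𝔽_q` the base change to the algebraic closure is
denoted by `X̄`. -/
structure GeoP (E : Type) [Field E] where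
  /-- the varieties -/
  Var : Type
  /-- the number `q` of elements of the finite field over which `X` is defined -/
  q : Var → ℕ
  /-- the morphisms `X̄ → Ȳ` -/
  Mor : Var → Var → Type
  /-- dimension -/
  dim : Var → ℕ
  /-- `X` is smooth -/
  Smooth : Var → Prop
  /-- `X` is geometrically simply connected: the étale fundamental group of `X̄` is trivial -/
  SC : Var → Prop
  /-- the cohomology group `H^i(X̄, ℚ_ℓ)` -/
  H : ℕ → Var → Type
  /-- addition -/
  grp : ∀ i X, AddCommGroup (H i X)
  /-- scalar multiplication -/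
  mod : ∀ i X, Module E (H i X)
  /-- pull-back of classes along a morphism -/
  pull : ∀ {X Y : Var} (i : ℕ), Mor X Y → H i Y →ₗ[E] H i X
  /-- the action of the geometric Frobenius of `𝔽_q` on `H^i(X̄, ℚ_ℓ)` -/
  Fr : ∀ i X, Module.End E (H i X)

attribute [instance] GeoP.grp GeoP.mod

variable {E : Type} [Field E]

/-- The pull-back `g^* c` of a class in degree `1`. -/
def GeoP.res1 (G : GeoP E) {X Y : G.Var} (g : G.Mor X Y) (c : G.H 1 Y) : G.H 1 X := G.pull 1 g c

/-- The pull-back `g^* c` of a class in degree `2`. -/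
def GeoP.res (G : GeoP E) {X Y : G.Var} (g : G.Mor X Y) (c : G.H 2 Y) : G.H 2 X := G.pull 2 g c

/-- The pull-back along `g` is injective in degree `2`. -/
def GeoP.Inj (G : GeoP E) {X Y : G.Var} (g : G.Mor X Y) : Prop := ∀ c : G.H 2 Y, G.res g c = 0 → c = 0

/-- `H¹(X̄, ℚ_ℓ) = 0`. -/
def GeoP.Reg (G : GeoP E) (X : G.Var) : Prop := ∀ c : G.H 1 X, c = 0

/-- `X` is a smooth projective surface. -/
def GeoP.Surface (G : GeoP E) (X : G.Var) : Prop := G.Smooth X ∧ G.dim X = 2

/-- A linear map `w : H²(X̄) → H²(Ȳ)` is compatible with the Frobenius endomorphisms: it commutes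
with the Frobenius endomorphisms of a common finite extension of the two finite fields (they are
powers of `Fr`). -/
def GeoP.Comp (G : GeoP E) {X Y : G.Var} (w : G.H 2 X →ₗ[E] G.H 2 Y) : Prop :=
  ∃ a b : ℕ, 0 < a ∧ 0 < b ∧ G.q X ^ a = G.q Y ^ b ∧
    ∀ c : G.H 2 X, w ((G.Fr 2 X ^ a) c) = (G.Fr 2 Y ^ b) (w c)

/-- Elementary properties: finite fields have at least two elements, `H²` is finite-dimensional, the
Frobenius is bijective, and a finite set of morphisms `X̄ → Ȳ` is defined over a common finite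
extension of the two finite fields, so that the sum of the pull-backs commutes with its Frobenius. -/
structure GeoP.IsFrobenius (G : GeoP E) : Prop where
  two : ∀ X, 2 ≤ G.q X
  finite : ∀ X, Module.Finite E (G.H 2 X)
  inj : ∀ X, Function.Injective (G.Fr 2 X)
  comp : ∀ {X Y : G.Var} (n : ℕ) [NeZero n] (g : ZMod n → G.Mor X Y), G.Comp (∑ i, G.pull 2 (g i))

/-- Let `X` be a smooth projective surface with Albanese map `f : X → A`, `n = 2 k` an even number,
`s` a point of `A`, and `Z = {(x_i) ∈ X^n : ∑ f(x_i) = s}`. The coordinates are indexed by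
`ℤ / n`; the coordinates in the set `I` (of `k` elements) give a morphism `P : Z → X^k`, the other
ones a morphism `P' : Z → X^k`. Let moreover `Y` be a simply connected smooth projective variety with
a free action of the group `ℤ / n` (Serre). -/
structure SumFibre (G : GeoP E) (X : G.Var) where
  /-- the Albanese variety of `X` -/
  A : G.Var
  /-- the Albanese map `X → A` -/
  f : G.Mor X A
  /-- the number of coordinates -/
  n : ℕ
  /-- the set `I` of half of the coordinates -/
  I : ZMod n → Prop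
  /-- the fibre `Z` -/
  Z : G.Var
  /-- the coordinates `x_i` -/
  x : ZMod n → G.Mor Z X
  /-- the rotations `(x_i) ↦ (x_(i + t))` of `Z` -/
  rot : ZMod n → G.Mor Z Z
  /-- a general fibre of `P`; `P'` identifies it with a fibre of the map `∑ f : X^k → A` -/
  F : G.Var
  /-- the inclusion of this fibre in `Z` -/
  j : G.Mor F Z
  /-- a general complete intersection surface `S ⊂ (Z × Y) / (ℤ/n)` -/
  S : G.Var
  /-- its inverse image `R ⊂ Z × Y` -/
  R : G.Var
  /-- the covering `R → S`, with Galois group `ℤ/n` -/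
  π : G.Mor R S
  /-- the projection `R → Z` -/
  r : G.Mor R Z

variable {G : GeoP E} {X : G.Var} (Q : SumFibre G X)

/-- The class `∑ x_i^* a_i` in `H¹(Z)`. -/
def SumFibre.sum1 [NeZero Q.n] (a : ZMod Q.n → G.H 1 X) : G.H 1 Q.Z :=
  ∑ i, G.res1 (Q.x i) (a i)

/-- The class `∑ x_i^* c` in `H²(Z)`. -/
def SumFibre.sum [NeZero Q.n] (c : G.H 2 X) : G.H 2 Q.Z := ∑ i, G.res (Q.x i) c

/-- Well-known facts on first cohomology if `k` is large and `s` general. By Igusa's theorem the
pull-back `H⁰(A, Ω¹) → H⁰(X, Ω¹)` is injective; hence the maps `∑ f : X^m → A` are separable for `m`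
large, with connected fibres, and the general fibre is a normal local complete intersection whose
singular points form a set of large codimension. -/
structure SumFibre.Good [NeZero Q.n] : Prop where
  /-- `S` is a smooth surface by Bertini's theorem -/
  surf : G.Surface Q.S
  /-- the Albanese map induces an isomorphism on `H¹` -/
  alb : ∀ c : G.H 1 X, ∃ w : G.H 1 Q.A, G.res1 Q.f w = c
  /-- the rotations permute the coordinates -/
  rot : ∀ (t i : ZMod Q.n) (a : G.H 1 X),
    G.res1 (Q.rot t) (G.res1 (Q.x i) a) = G.res1 (Q.x (i + t)) a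
  /-- `∑ f(x_i)` is constant on `Z`, and `(g + g')^* = g^* + g'^*` on the `H¹` of an abelian
  variety -/
  const : ∀ w : G.H 1 Q.A, Q.sum1 (fun _ => G.res1 Q.f w) = 0
  /-- Deligne's theorem on global invariant cycles (Weil II) for `∑ f : X^k → A` and `P : Z → X^k`:
  the classes in `H¹(F)` that extend to `Z` are invariant under the fundamental group of an open set
  of `X^k`, hence of `A`, and they extend to `X^k`; moreover `H¹(X^k)` is the sum of the
  `x_i^* H¹(X)` -/
  fixed : ∀ c : G.H 1 Q.Z, ∃ b : ZMod Q.n → G.H 1 X, (∀ i, Q.I i → b i = 0) ∧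
    G.res1 Q.j c = G.res1 Q.j (Q.sum1 b)
  /-- a class in `H¹(Z)` that vanishes on the general fibre of `P` comes from the base `X^k` -/
  leray : ∀ c : G.H 1 Q.Z, G.res1 Q.j c = 0 → ∃ a : ZMod Q.n → G.H 1 X, c = Q.sum1 a
  /-- `H¹(S)` is the invariant part of `H¹(R)`, and `H¹(R) = H¹(Z × Y) = H¹(Z)` by Lefschetz'
  theorem -/
  quot : (∀ c : G.H 1 Q.Z, (∀ t, G.res1 (Q.rot t) c = c) → c = 0) → G.Reg Q.S

variable {Q}

theorem GeoP.res1_sub {X Y : G.Var} (g : G.Mor X Y) (c c' : G.H 1 Y) :
    G.res1 g (c - c') = G.res1 g c - G.res1 g c' := map_sub (G.pull 1 g) c c'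

theorem SumFibre.sum1_sub [NeZero Q.n] (a b : ZMod Q.n → G.H 1 X) :
    Q.sum1 a - Q.sum1 b = Q.sum1 (fun i => a i - b i) := by
  unfold SumFibre.sum1
  rw [← Finset.sum_sub_distrib]
  exact Finset.sum_congr rfl fun i _ => (GeoP.res1_sub _ _ _).symm

/-- `H¹(Z)` is generated by the pull-backs of `H¹(X)` along the coordinates. -/
theorem SumFibre.Good.span [NeZero Q.n] (h : Q.Good) (c : G.H 1 Q.Z) :
    ∃ a : ZMod Q.n → G.H 1 X, c = Q.sum1 a := by
  obtain ⟨b, -, hb⟩ := h.fixed c
  obtain ⟨a, ha⟩ := h.leray (c - Q.sum1 b) (by rw [GeoP.res1_sub, hb, sub_self])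
  refine ⟨fun i => a i - (0 - b i), ?_⟩
  rw [← SumFibre.sum1_sub, ← ha]
  have e : Q.sum1 (fun i => 0 - b i) = - Q.sum1 b := by
    rw [← SumFibre.sum1_sub]
    have e0 : Q.sum1 (fun _ => (0 : G.H 1 X)) = 0 :=
      Finset.sum_eq_zero fun i _ => map_zero (G.pull 1 (Q.x i))
    rw [e0, zero_sub]
  rw [e]
  abel

/-- There are no nonzero classes in `H¹(Z)` invariant under the rotations. -/
theorem SumFibre.Good.inv [CharZero E] [NeZero Q.n] (h : Q.Good) (c : G.H 1 Q.Z)
    (hc : ∀ t, G.res1 (Q.rot t) c = c) : c = 0 := by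
  obtain ⟨a, ha⟩ := h.span c
  obtain ⟨w, hw⟩ := h.alb (∑ i, a i)
  have h1 : (Q.n : E) • c = Q.sum1 (fun _ => ∑ i, a i) := by
    have e1 : ∑ t : ZMod Q.n, G.res1 (Q.rot t) c = (Q.n : E) • c := by
      rw [Finset.sum_congr rfl (fun t _ => hc t), Finset.sum_const, Finset.card_univ,
        ZMod.card, ← Nat.cast_smul_eq_nsmul E]
    have e2 : ∀ t, G.res1 (Q.rot t) c = ∑ i, G.res1 (Q.x (i + t)) (a i) := by
      intro t
      have e3 : G.res1 (Q.rot t) c = ∑ i, G.res1 (Q.rot t) (G.res1 (Q.x i) (a i)) := by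
        rw [ha]
        exact map_sum (G.pull 1 (Q.rot t)) _ _
      rw [e3]
      exact Finset.sum_congr rfl fun i _ => h.rot t i (a i)
    rw [← e1, Finset.sum_congr rfl (fun t _ => e2 t), Finset.sum_comm]
    have e4 : ∀ i, ∑ t, G.res1 (Q.x (i + t)) (a i) = ∑ t, G.res1 (Q.x t) (a i) := fun i =>
      Fintype.sum_equiv (Equiv.addLeft i) _ _ fun t => rfl
    rw [Finset.sum_congr rfl (fun i _ => e4 i), Finset.sum_comm]
    unfold SumFibre.sum1
    exact Finset.sum_congr rfl fun t _ => (map_sum (G.pull 1 (Q.x t)) _ _).symm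
  rw [← hw, h.const w] at h1
  rcases smul_eq_zero.1 h1 with h2 | h2
  · exact absurd (Nat.cast_eq_zero.1 h2) (NeZero.ne Q.n)
  · exact h2

/-- **The surface `S` has `H¹(S) = 0`.** -/
theorem SumFibre.Good.reg [CharZero E] [NeZero Q.n] (h : Q.Good) : G.Reg Q.S := h.quot h.inv

end Pool.Agent.Q226.SCP
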