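import Pool.Agent.Q226.SCP.Comp

set_option autoImplicit false

/-!
# Second cohomology of fibres of sums of Albanese maps and of Hilbert squares
-/

namespace Pool.Agent.Q226.SCP

variable {E : Type} [Field E] {G : GeoP E}

/-- Further data for `Z = {(x_i) ∈ X^n : ∑ f(x_i) = s}`: the surface squared and the map `Φ`. -/
structure Square (X : G.Var) (Q : SumFibre G X) where
  /-- `X × X` -/
  XX : G.Var
  /-- the first projection `X × X → X` -/
  e₁ : G.Mor XX X
  /-- the second projection -/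
  e₂ : G.Mor XX X
  /-- the morphism `(x, x') ↦ f(x) + f(x')` to the Albanese variety -/
  σ : G.Mor XX Q.A
  /-- an ample class of `X` -/
  l : G.H 2 X
  /-- the map `Φ(z) = (x_0, x_1)_* (h^m · z)`, where `h = ∑ x_i^* l` and `m` is the dimension of the
  fibres of `(x_0, x_1) : Z → X × X` -/
  Φ : G.H 2 Q.Z →ₗ[E] G.H 2 XX

/-- The rotations permute the coordinates of `Z`. -/
def Square.Rotates {X : G.Var} {Q : SumFibre G X} (_ : Square X Q) : Prop :=
  ∀ (t i : ZMod Q.n) (c : G.H 2 X), G.res (Q.rot t) (G.res (Q.x i) c) = G.res (Q.x (i + t)) c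

/-- `R → S` is a Galois covering with group `ℤ/n`, so that the pull-backs to `R` of invariant classes
of `Z` descend to `S`. -/
def Square.Descends {X : G.Var} {Q : SumFibre G X} (_ : Square X Q) : Prop :=
  ∀ z : G.H 2 Q.Z, (∀ t, G.res (Q.rot t) z = z) → ∃ y : G.H 2 Q.S, G.res Q.π y = G.res Q.r z

/-- Projection formula: `Φ(x_0^* c) = N e₁^* c` and `Φ(x_1^* c) = N e₂^* c`, where `N > 0` is the
degree of `h^m` on the fibres of `(x_0, x_1)`. -/
def Square.Projection {X : G.Var} {Q : SumFibre G X} (D : Square X Q) : Prop :=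
  ∃ N : E, N ≠ 0 ∧ ∀ c : G.H 2 X,
    D.Φ (G.res (Q.x 0) c) = N • G.res D.e₁ c ∧ D.Φ (G.res (Q.x 1) c) = N • G.res D.e₂ c

/-- Base change: `Z` is the fibre product over `A` of `s - σ : X × X → A` and
`g = ∑ f : X^(n-2) → A`, and for `i ≠ 0, 1` the class `Φ(x_i^* c)` is
`(s - σ)^* g_*(h^m x_i^* c) = σ^* a` plus a multiple of `e₁^* l + e₂^* l`. -/
def Square.CrossTerms {X : G.Var} {Q : SumFibre G X} (D : Square X Q) : Prop :=
  ∀ i : ZMod Q.n, i ≠ 0 → i ≠ 1 → ∀ c : G.H 2 X, ∃ (a : G.H 2 Q.A) (t : E),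
    D.Φ (G.res (Q.x i) c) = G.res D.σ a + t • (G.res D.e₁ D.l + G.res D.e₂ D.l)

/-- Künneth: `σ^* a` is the sum of `e₁^* f^* a + e₂^* f^* a` and of a class in `H¹(X) ⊗ H¹(X)` that
vanishes only if `a = 0`, as `f^*` is bijective on `H¹`. -/
def Square.Kuenneth {X : G.Var} {Q : SumFibre G X} (D : Square X Q) : Prop :=
  ∀ (c : G.H 2 X) (a : G.H 2 Q.A), G.res D.e₁ c + G.res D.e₂ c + G.res D.σ a = 0 → c = 0

/-- Facts on second cohomology for `Z` and its covering `R → S`, `n` large and `s` general. -/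
structure Square.Good {X : G.Var} {Q : SumFibre G X} (D : Square X Q) : Prop where
  rotates : D.Rotates
  descends : D.Descends
  /-- the pull-back along the covering `R → S` is injective -/
  inj : G.Inj Q.π
  /-- Lefschetz: the restriction from `H²(Z × Y)`, hence from `H²(Z)`, to `H²(R)` is injective -/
  lefschetz : G.Inj Q.r
  projection : D.Projection
  crossTerms : D.CrossTerms
  kuenneth : D.Kuenneth
  /-- the class `h` is ample -/
  ample : ∀ _ : NeZero Q.n, Q.sum D.l ≠ 0
  /-- there are at least two coordinates -/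
  two : 2 ≤ Q.n

theorem GeoP.res_add (G : GeoP E) {X Y : G.Var} (g : G.Mor X Y) (c c' : G.H 2 Y) :
    G.res g (c + c') = G.res g c + G.res g c' := map_add (G.pull 2 g) c c'

theorem GeoP.res_smul (G : GeoP E) {X Y : G.Var} (g : G.Mor X Y) (t : E) (c : G.H 2 Y) :
    G.res g (t • c) = t • G.res g c := map_smul (G.pull 2 g) t c

theorem SumFibre.sum_eq {X : G.Var} (Q : SumFibre G X) [NeZero Q.n] (c : G.H 2 X) :
    Q.sum c = (∑ i, G.pull 2 (Q.x i)) c := by
  rw [LinearMap.sum_apply]; rfl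

/-- **The map `c ↦ ∑ x_i^* c` from `H²(X)` to `H²(Z)` is injective.** -/
theorem Square.Good.sum_inj {X : G.Var} {Q : SumFibre G X} [NeZero Q.n] {D : Square X Q}
    (h : D.Good) (c : G.H 2 X) (hc : Q.sum c = 0) : c = 0 := by
  classical
  obtain ⟨N, hN, hp⟩ := h.projection
  have h01 : (0 : ZMod Q.n) ≠ 1 := by
    have := h.two
    intro h0
    have h1 : (1 : ZMod Q.n).val = 0 := by rw [← h0, ZMod.val_zero]
    have : Fact (1 < Q.n) := ⟨by omega⟩
    rw [ZMod.val_one] at h1
    exact one_ne_zero h1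
  choose! a t hat using h.crossTerms
  -- the value of `Φ` on the sum
  have e1 : D.Φ (Q.sum c) = N • G.res D.e₁ c + N • G.res D.e₂ c +
      (G.res D.σ (∑ i ∈ (Finset.univ.erase (0 : ZMod Q.n)).erase 1, a i c) +
        (∑ i ∈ (Finset.univ.erase (0 : ZMod Q.n)).erase 1, t i c) •
          (G.res D.e₁ D.l + G.res D.e₂ D.l)) := by
    unfold SumFibre.sum
    rw [map_sum, ← Finset.add_sum_erase _ _ (Finset.mem_univ (0 : ZMod Q.n)),
      ← Finset.add_sum_erase _ _ (Finset.mem_erase.2 ⟨h01.symm, Finset.mem_univ (1 : ZMod Q.n)⟩),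
      (hp c).1, (hp c).2, add_assoc]
    congr 2
    have e2 : G.res D.σ (∑ i ∈ (Finset.univ.erase (0 : ZMod Q.n)).erase 1, a i c) =
        ∑ i ∈ (Finset.univ.erase (0 : ZMod Q.n)).erase 1, G.res D.σ (a i c) :=
      map_sum (G.pull 2 D.σ) _ _
    rw [e2, Finset.sum_smul, ← Finset.sum_add_distrib]
    refine Finset.sum_congr rfl fun i hi => ?_
    rw [Finset.mem_erase, Finset.mem_erase] at hi
    exact hat i hi.2.1 hi.1 c
  set b : G.H 2 Q.A := ∑ i ∈ (Finset.univ.erase (0 : ZMod Q.n)).erase 1, a i c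
  set τ : E := ∑ i ∈ (Finset.univ.erase (0 : ZMod Q.n)).erase 1, t i c
  have e3 : G.res D.e₁ (N • c + τ • D.l) + G.res D.e₂ (N • c + τ • D.l) + G.res D.σ b = 0 := by
    have e4 : D.Φ (Q.sum c) = 0 := by rw [hc, map_zero]
    rw [e1] at e4
    rw [G.res_add, G.res_add, G.res_smul, G.res_smul, G.res_smul, G.res_smul, ← e4]
    module
  have e5 : N • c + τ • D.l = 0 := h.kuenneth _ _ e3
  have e6 : c = (-(N⁻¹ * τ)) • D.l := by
    have e7 : N • c = -(τ • D.l) := eq_neg_of_add_eq_zero_left e5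
    calc c = N⁻¹ • (N • c) := by rw [smul_smul, inv_mul_cancel₀ hN, one_smul]
      _ = (-(N⁻¹ * τ)) • D.l := by rw [e7]; module
  have e8 : (-(N⁻¹ * τ)) • Q.sum D.l = 0 := by
    rw [Q.sum_eq, ← map_smul, ← e6, ← Q.sum_eq, hc]
  rcases smul_eq_zero.1 e8 with e9 | e9
  · rw [e6, e9, zero_smul]
  · exact absurd e9 (h.ample inferInstance)

/-- **`H²(X̄)` embeds in `H²(S̄)`.** -/
theorem Square.Good.embeds (hG : G.IsFrobenius) {X : G.Var} {Q : SumFibre G X} [NeZero Q.n]
    {D : Square X Q} (h : D.Good) : G.Embeds X Q.S := by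
  have h1 : G.Comp ((G.pull 2 Q.r).comp (∑ i, G.pull 2 (Q.x i))) :=
    (hG.comp Q.n Q.x).trans (hG.pull Q.r)
  have h2 : ∀ c, (∑ i, G.pull 2 (Q.x i)) c = Q.sum c := fun c => (Q.sum_eq c).symm
  obtain ⟨u, hu, hv⟩ := h1.lift (hG.pull Q.π) h.inj.injective (fun c => by
    rw [LinearMap.comp_apply, h2]
    refine h.descends _ fun t => ?_
    have e1 : G.res (Q.rot t) (Q.sum c) = ∑ i, G.res (Q.rot t) (G.res (Q.x i) c) :=
      map_sum (G.pull 2 (Q.rot t)) _ _
    rw [e1, Finset.sum_congr rfl (fun i _ => h.rotates t i c)]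
    exact Fintype.sum_equiv (Equiv.addRight t) _ _ fun i => rfl)
  refine ⟨u, ?_, hu⟩
  rw [injective_iff_map_eq_zero]
  intro c hc
  refine h.sum_inj c (h.lefschetz _ ?_)
  have e2 := hv c
  rw [hc, map_zero, LinearMap.comp_apply, h2] at e2
  exact e2.symm

/-- Let `X` be a smooth projective surface with `H¹(X) = 0`. -/
structure Hilbert (G : GeoP E) (X : G.Var) where
  /-- the blow-up `P` of `X × X` in the diagonal -/
  P : G.Var
  /-- the first projection `P → X` -/
  p₁ : G.Mor P X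
  /-- the second projection -/
  p₂ : G.Mor P X
  /-- the Hilbert scheme `X^[2]` -/
  X2 : G.Var
  /-- the double covering `P → X^[2]` -/
  ρ : G.Mor P X2
  /-- the universal covering `T` of `X^[2]`, finite and étale since the fundamental group of `X^[2]`
  is the abelianised fundamental group of `X`, which is finite as `H¹(X) = 0` -/
  T : G.Var
  /-- the covering `T → X^[2]` -/
  κ : G.Mor T X2
  /-- a smooth complete intersection surface in the smooth projective fourfold `T` -/
  S : G.Var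
  /-- its inclusion -/
  i : G.Mor S T

/-- Well-known facts. -/
structure Hilbert.Good {X : G.Var} (D : Hilbert G X) : Prop where
  /-- `S` is a smooth projective surface -/
  surf : G.Surface D.S
  /-- Lefschetz: `S` is simply connected as `T` is -/
  sc : G.SC D.S
  /-- the classes `p₁^* c + p₂^* c` are invariant under the exchange of the factors and descend -/
  descend : ∀ c : G.H 2 X, ∃ y : G.H 2 D.X2, G.res D.ρ y = G.res D.p₁ c + G.res D.p₂ c
  /-- `p₁^* c + p₂^* c` is not zero for `c ≠ 0`: restrict it to `X × {x}` -/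
  sum : ∀ c : G.H 2 X, G.res D.p₁ c + G.res D.p₂ c = 0 → c = 0
  /-- pull-back along finite coverings is injective -/
  injρ : G.Inj D.ρ
  injκ : G.Inj D.κ
  /-- Lefschetz -/
  injS : G.Inj D.i

/-- **`H²(X̄)` embeds in `H²(S̄)` for a simply connected surface `S`.** -/
theorem Hilbert.Good.embeds (hG : G.IsFrobenius) {X : G.Var} {D : Hilbert G X} (h : D.Good) :
    G.Embeds X D.S := by
  have h0 : ∀ c, (∑ i, G.pull 2 ((fun i : ZMod 2 => if i = 0 then D.p₁ else D.p₂) i)) c =
      G.res D.p₁ c + G.res D.p₂ c := by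
    intro c
    rw [LinearMap.sum_apply]
    exact Fin.sum_univ_two (fun i : Fin 2 => G.pull 2 (if i = 0 then D.p₁ else D.p₂) c)
  obtain ⟨u, hu, hv⟩ := (hG.comp 2 (fun i : ZMod 2 => if i = 0 then D.p₁ else D.p₂)).lift
    (hG.pull D.ρ) h.injρ.injective (fun c => by rw [h0]; exact h.descend c)
  have h1 : G.Embeds X D.X2 := by
    refine ⟨u, ?_, hu⟩
    rw [injective_iff_map_eq_zero]
    intro c hc
    have e1 := hv c
    rw [hc, map_zero, h0] at e1
    exact h.sum c e1.symm
  exact h1.trans ((h.injκ.embeds hG).trans (h.injS.embeds hG))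

end Pool.Agent.Q226.SCP
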