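import Pool.Agent.Q226.SCP.Semi

set_option autoImplicit false

/-!
# Semisimplicity of Frobenius on second cohomology reduces to simply connected surfaces
-/

namespace Pool.Agent.Q226.SCP

variable {E : Type} [Field E] {G : GeoP E}

/-- The operator `Fr - q` on `H²(X̄, ℚ_ℓ)`. -/
def GeoP.D (G : GeoP E) (X : G.Var) (c : G.H 2 X) : G.H 2 X := G.Fr 2 X c - (G.q X : E) • c

/-- The eigenvalue `q` of the Frobenius on `H²(X̄, ℚ_ℓ)` is semisimple: the generalised eigenspace is
the eigenspace. -/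
def GeoP.SSq (G : GeoP E) (X : G.Var) : Prop := ∀ c : G.H 2 X, G.D X (G.D X c) = 0 → G.D X c = 0

/-- Base change to the extension of degree `m` of the finite field. -/
def GeoP.BaseChange (G : GeoP E) : Prop := ∀ (X : G.Var) (m : ℕ), 0 < m →
  ∃ (X' : G.Var) (g : G.Mor X' X), (G.Smooth X → G.Smooth X') ∧ (G.SC X → G.SC X') ∧
    G.dim X' = G.dim X ∧ G.q X' = G.q X ^ m ∧ Function.Bijective (G.res g) ∧
    ∀ c, G.Fr 2 X' (G.res g c) = G.res g ((G.Fr 2 X ^ m) c)

/-- The well-known facts. -/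
structure H2Facts (G : GeoP E) : Prop where
  frob : G.IsFrobenius
  base : G.BaseChange
  /-- in dimension at most one `H²` is zero or spanned by the class of a point, and the Frobenius
  acts by a scalar -/
  low : ∀ X, G.dim X ≤ 1 → ∃ t : E, ∀ c : G.H 2 X, G.Fr 2 X c = t • c
  /-- Lefschetz: the restriction to a smooth complete intersection surface is injective in degree
  two -/
  lefschetz : ∀ X, G.Smooth X → 2 ≤ G.dim X → ∃ (S : G.Var) (i : G.Mor S X), G.Surface S ∧ G.Inj i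
  /-- fibres of sums of Albanese maps -/
  fibres : ∀ X, G.Surface X → ∃ (Q : SumFibre G X) (_ : NeZero Q.n) (D : Square X Q),
    Q.Good ∧ D.Good
  /-- Hilbert squares of surfaces with `H¹ = 0` -/
  hilbert : ∀ X, G.Surface X → G.Reg X → ∃ D : Hilbert G X, D.Good

/-- **`H²` of every variety embeds in `H²` of a simply connected surface.** -/
theorem H2Facts.embeds [CharZero E] (F : H2Facts G) (X : G.Var) (hX : G.Smooth X)
    (hd : 2 ≤ G.dim X) : ∃ S, G.Surface S ∧ G.SC S ∧ G.Embeds X S := by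
  obtain ⟨X₁, i, h1, hi⟩ := F.lefschetz X hX hd
  obtain ⟨Q, hn, D, hQ, hD⟩ := F.fibres X₁ h1
  obtain ⟨D', h'⟩ := F.hilbert Q.S hQ.surf hQ.reg
  exact ⟨D'.S, h'.surf, h'.sc,
    (hi.embeds F.frob).trans ((hD.embeds F.frob).trans (h'.embeds F.frob))⟩

theorem H2Facts.ss_iff [CharZero E] (F : H2Facts G) :
    (∀ X, G.Smooth X → G.SS X) ↔ ∀ S, G.Surface S → G.SC S → G.SS S := by
  refine ⟨fun h S hS _ => h S hS.1, fun h X hX => ?_⟩
  rcases Nat.lt_or_ge (G.dim X) 2 with hd | hd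
  · obtain ⟨t, ht⟩ := F.low X (by omega)
    have e : G.Fr 2 X = t • LinearMap.id := by
      ext c
      rw [ht]; rfl
    unfold GeoP.SS
    rw [e]
    exact Module.End.IsSemisimple_smul _ Module.End.isSemisimple_id
  · obtain ⟨S, h1, h2, h3⟩ := F.embeds X hX hd
    exact h3.ss F.frob (h S h1 h2)

/-- Elementary algebra: if `(φ - λ)² v = 0` then `(φ^a - λ^a) v = a λ^(a-1) (φ - λ) v`. -/
theorem pow_sub_apply {V : Type*} [AddCommGroup V] [Module E V] (φ : Module.End E V) (t : E) (v : V)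
    (h : φ (φ v - t • v) - t • (φ v - t • v) = 0) (a : ℕ) :
    (φ ^ a) v - t ^ a • v = ((a : E) * t ^ (a - 1)) • (φ v - t • v) ∧
      (φ ^ a) (φ v - t • v) = t ^ a • (φ v - t • v) := by
  set w := φ v - t • v with hw
  have hφw : φ w = t • w := sub_eq_zero.1 h
  have hφv : φ v = t • v + w := by rw [hw]; abel
  induction a with
  | zero => simp
  | succ a ih =>
    obtain ⟨h1, h2⟩ := ih
    have h3 : (φ ^ a) v = t ^ a • v + ((a : E) * t ^ (a - 1)) • w := by rw [← h1]; abel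
    constructor
    · rw [pow_succ, Module.End.mul_apply, hφv, map_add, map_smul, h3, h2]
      rcases Nat.eq_zero_or_pos a with h0 | h0
      · subst h0; simp
      · have h4 : t * t ^ (a - 1) = t ^ a := by
          rw [← pow_succ', Nat.sub_add_cancel h0]
        rw [Nat.add_sub_cancel, Nat.cast_add, Nat.cast_one, smul_add, smul_smul, smul_smul]
        have h5 : t * ((a : E) * t ^ (a - 1)) = (a : E) * t ^ a := by
          rw [mul_left_comm, h4]
        rw [h5, pow_succ']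
        module
    · rw [pow_succ, Module.End.mul_apply, hφw, map_smul, h2, smul_smul, pow_succ']

/-- The eigenvalue `q^m` of the Frobenius of the extension of degree `m` is semisimple. -/
def GeoP.SSm (G : GeoP E) (X : G.Var) (m : ℕ) : Prop := ∀ c : G.H 2 X,
  (G.Fr 2 X ^ m) ((G.Fr 2 X ^ m) c - ((G.q X : E) ^ m) • c) -
    ((G.q X : E) ^ m) • ((G.Fr 2 X ^ m) c - ((G.q X : E) ^ m) • c) = 0 →
  (G.Fr 2 X ^ m) c - ((G.q X : E) ^ m) • c = 0

theorem GeoP.Embeds.ssq [CharZero E] (hG : G.IsFrobenius) {X Y : G.Var} (h : G.Embeds X Y)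
    (hY : ∀ m, 0 < m → G.SSm Y m) : G.SSq X := by
  intro c hc
  obtain ⟨w, hi, a, b, ha, hb, hq, hw⟩ := h
  unfold GeoP.D at hc ⊢
  obtain ⟨h1, h2⟩ := pow_sub_apply (G.Fr 2 X) (G.q X : E) c hc a
  have hqE : ((G.q X : E)) ^ a = ((G.q Y : E)) ^ b := by exact_mod_cast congrArg (Nat.cast : ℕ → E) hq
  have h3 : (G.Fr 2 Y ^ b) (w c) - ((G.q Y : E) ^ b) • w c =
      w (((a : E) * (G.q X : E) ^ (a - 1)) • (G.Fr 2 X c - (G.q X : E) • c)) := by
    rw [← h1, map_sub, hw, map_smul, hqE]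
  have h4 := hY b hb (w c) (by
    rw [h3, map_smul, map_smul, ← hw, h2, map_smul, hqE, smul_comm, sub_self])
  rw [h3] at h4
  have h5 : ((a : E) * (G.q X : E) ^ (a - 1)) • (G.Fr 2 X c - (G.q X : E) • c) = 0 :=
    hi (by rw [h4, map_zero])
  rcases smul_eq_zero.1 h5 with h6 | h6
  · exfalso
    rcases mul_eq_zero.1 h6 with h7 | h7
    · exact ha.ne' (Nat.cast_eq_zero.1 h7)
    · have h8 := hG.two X
      have h9 : (G.q X : E) = 0 := eq_zero_of_pow_eq_zero h7
      have h10 : G.q X = 0 := Nat.cast_eq_zero.1 h9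
      omega
  · exact h6

theorem GeoP.BaseChange.ssm (hB : G.BaseChange) (h : ∀ S, G.Surface S → G.SC S → G.SSq S)
    (S : G.Var) (hS : G.Surface S) (hs : G.SC S) (m : ℕ) (hm : 0 < m) : G.SSm S m := by
  obtain ⟨X', g, h1, h2, h3, h4, h5, h6⟩ := hB S m hm
  have h7 := h X' ⟨h1 hS.1, by rw [h3, hS.2]⟩ (h2 hs)
  have hq : (G.q X' : E) = (G.q S : E) ^ m := by rw [h4, Nat.cast_pow]
  have key : ∀ c : G.H 2 S, G.D X' (G.res g c) =
      G.res g ((G.Fr 2 S ^ m) c - ((G.q S : E) ^ m) • c) := by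
    intro c
    unfold GeoP.D
    rw [h6, hq]
    exact ((map_sub (G.pull 2 g) _ _).trans (congrArg _ (map_smul (G.pull 2 g) _ _))).symm
  intro c hc
  have h8 := h7 (G.res g c) (by
    rw [key, key, hc]
    exact map_zero (G.pull 2 g))
  rw [key] at h8
  exact h5.1 (h8.trans (map_zero (G.pull 2 g)).symm)

theorem H2Facts.ssq_iff [CharZero E] (F : H2Facts G) :
    (∀ X, G.Smooth X → G.SSq X) ↔ ∀ S, G.Surface S → G.SC S → G.SSq S := by
  refine ⟨fun h S hS _ => h S hS.1, fun h X hX => ?_⟩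
  rcases Nat.lt_or_ge (G.dim X) 2 with hd | hd
  · obtain ⟨t, ht⟩ := F.low X (by omega)
    intro c hc
    unfold GeoP.D at hc ⊢
    have e1 : G.Fr 2 X c - (G.q X : E) • c = (t - (G.q X : E)) • c := by rw [ht, sub_smul]
    rw [e1, map_smul, ht, smul_comm ((G.q X : E)), ← smul_sub, ← sub_smul] at hc
    rw [e1]
    rcases smul_eq_zero.1 hc with h1 | h1
    · rw [h1, zero_smul]
    · exact h1
  · obtain ⟨S, h1, h2, h3⟩ := F.embeds X hX hd
    exact h3.ssq F.frob fun m hm => F.base.ssm h S h1 h2 m hm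

end Pool.Agent.Q226.SCP
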