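import Pool.Agent.Q226.SCP.Semi
import Pool.Agent.Q226.SCP.SemiMain

set_option autoImplicit false

/-!
# Divisor classes and Tate classes on varieties over finite fields
-/

namespace Pool.Agent.Q226.SCP

variable {E : Type} [Field E]

/-- Classes of divisors in `H²(X̄, ℚ_ℓ)`. (A trivialisation of `ℚ_ℓ(1)` over the algebraic closure is
fixed; the Frobenius on `H²(X̄, ℚ_ℓ(1))` is then `q⁻¹ Fr`.) -/
structure DivisorClasses (G : GeoP E) where
  /-- the span of the classes of the divisors on `X` defined over the finite field `𝔽_q` -/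
  Div : ∀ X, Submodule E (G.H 2 X)
  /-- the span of the classes of the divisors on `X̄` -/
  Alg : ∀ X, Submodule E (G.H 2 X)

/-- The class `c` is invariant under the Galois group of `𝔽_q`, i.e. `Fr c = q c`. -/
def GeoP.Inv (G : GeoP E) (X : G.Var) (c : G.H 2 X) : Prop := G.Fr 2 X c = (G.q X : E) • c

/-- `c` is a Tate class: it is invariant under the Galois group of some finite extension of
`𝔽_q`. -/
def GeoP.IsTate (G : GeoP E) (X : G.Var) (c : G.H 2 X) : Prop :=
  ∃ m : ℕ, 0 < m ∧ (G.Fr 2 X ^ m) c = ((G.q X : E) ^ m) • c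

/-- The multiplicity of `q` as a root of the characteristic polynomial of `Fr` on `H²(X̄, ℚ_ℓ)`: the
dimension of the generalised eigenspace. -/
noncomputable def GeoP.mult (G : GeoP E) (X : G.Var) : ℕ :=
  Module.finrank E ((G.Fr 2 X).maxGenEigenspace (G.q X : E))

variable {G : GeoP E} (T : DivisorClasses G)

/-- The Tate conjecture for divisors on `X` over `𝔽_q`: the classes of divisors span the invariant
classes, and their span has dimension `mult X`. -/
def DivisorClasses.Conj (X : G.Var) : Prop :=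
  (∀ c : G.H 2 X, c ∈ T.Div X ↔ G.Inv X c) ∧ Module.finrank E (T.Div X) = G.mult X

/-- All Tate classes are spanned by classes of divisors on `X̄`. -/
def DivisorClasses.T1 (X : G.Var) : Prop := ∀ c : G.H 2 X, G.IsTate X c → c ∈ T.Alg X

/-- Push-forward along the coordinate `x_0 : R → X`, for a general fibre `Z` of the sum of the
Albanese maps and its covering `R → S`. -/
structure Push {X : G.Var} (Q : SumFibre G X) where
  /-- the map `Ψ = (x_0)_* : H²(R) → H²(X)` between the surfaces `R` and `X` -/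
  Ψ : G.H 2 Q.R →ₗ[E] G.H 2 X
  /-- an ample class of `X` -/
  l : G.H 2 X

/-- Facts: morphisms and push-forward respect classes of divisors, and formulas for `Ψ`. -/
structure Push.Good {X : G.Var} {Q : SumFibre G X} (D : Push Q) : Prop where
  push : ∀ z ∈ T.Alg Q.R, D.Ψ z ∈ T.Alg X
  pullπ : ∀ y ∈ T.Alg Q.S, G.res Q.π y ∈ T.Alg Q.R
  pullf : ∀ a ∈ T.Alg Q.A, G.res Q.f a ∈ T.Alg X
  ample : D.l ∈ T.Alg X
  /-- projection formula, `N` is the degree of `x_0 : R → X` -/
  proj : ∃ N : E, N ≠ 0 ∧ ∀ c : G.H 2 X, D.Ψ (G.res Q.r (G.res (Q.x 0) c)) = N • c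
  /-- base change: `Z` is the fibre product over `A` of `s - f : X → A` and
  `g = ∑ f : X^(n-1) → A`; for a Tate class `c` and `i ≠ 0` the class `Ψ(x_i^* c)` is
  `(s - f)^* a` plus a multiple of `l`, where `a = g_*(h^m x_i^* c)` is a Tate class of `A`, and
  `(s - f)^* a = f^* a` in degree two -/
  base : ∀ i : ZMod Q.n, i ≠ 0 → ∀ c : G.H 2 X, G.IsTate X c → ∃ (a : G.H 2 Q.A) (t : E),
    G.IsTate Q.A a ∧ D.Ψ (G.res Q.r (G.res (Q.x i) c)) = G.res Q.f a + t • D.l
  /-- Tate's theorem for abelian varieties -/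
  tate : T.T1 Q.A

/-- The correspondence from a surface in the universal covering of the Hilbert square. -/
structure HilbertPush {X : G.Var} (D : Hilbert G X) where
  /-- the map `Θ = p₁_* ρ^* κ_* i_* : H²(S) → H²(X)` (it passes through `H⁶` of `T`, of `X^[2]` and
  of the blow-up `P`) -/
  Θ : G.H 2 D.S →ₗ[E] G.H 2 X
  /-- an ample class of `X` -/
  l : G.H 2 X

/-- Facts: `Θ` respects classes of divisors, and if `S` is the intersection of two divisors whose
classes are the pull-back to `T` of the class on `X^[2]` given by `a (p₁^* l + p₂^* l) - b e` on `P`,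
`e` the class of the exceptional divisor, then for `y` with `ρ^* y = p₁^* c + p₂^* c` the class
`Θ(i^* κ^* y)` is `d ((a² l² - 2 b²) c + 2 a² (c · l) l)`, `d` the degree of `κ`. -/
structure HilbertPush.Good {X : G.Var} {D : Hilbert G X} (K : HilbertPush D) : Prop where
  push : ∀ z ∈ T.Alg D.S, K.Θ z ∈ T.Alg X
  ample : K.l ∈ T.Alg X
  formula : ∃ N : E, N ≠ 0 ∧ ∀ (c : G.H 2 X) (y : G.H 2 D.X2),
    G.res D.ρ y = G.res D.p₁ c + G.res D.p₂ c →
      ∃ t : E, K.Θ (G.res D.i (G.res D.κ y)) = N • c + t • K.l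

/-- Base change to the extension of degree `m` of the finite field, with classes of divisors on
`X̄`. -/
def DivisorClasses.BaseChange : Prop := ∀ (X : G.Var) (m : ℕ), 0 < m →
  ∃ (X' : G.Var) (g : G.Mor X' X), (G.Smooth X → G.Smooth X') ∧ (G.SC X → G.SC X') ∧
    G.dim X' = G.dim X ∧ G.q X' = G.q X ^ m ∧ (∀ c, G.res g c ∈ T.Alg X' → c ∈ T.Alg X) ∧
    ∀ c, G.Fr 2 X' (G.res g c) = G.res g ((G.Fr 2 X ^ m) c)

/-- The well-known facts. -/
structure TateFacts : Prop where
  frob : G.IsFrobenius
  base : T.BaseChange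
  /-- the classes of divisors over `𝔽_q` are invariant and are classes of divisors on `X̄` -/
  div : ∀ X, ∀ c ∈ T.Div X, G.Inv X c ∧ c ∈ T.Alg X
  /-- an invariant class that is a combination of classes of divisors on `X̄` is a combination of
  classes of divisors over `𝔽_q` (take the mean over conjugates) -/
  mean : ∀ X, ∀ c ∈ T.Alg X, G.Inv X c → c ∈ T.Div X
  /-- Tate: if the classes of divisors span the invariant classes, then the eigenvalue `q` is
  semisimple (as homological and numerical equivalence agree for divisors) -/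
  tate : ∀ X, G.Smooth X → (∀ c, G.Inv X c → c ∈ T.Div X) → G.SSq X
  /-- Morrow, de Jong: reduction to surfaces -/
  surfaces : (∀ X, G.Surface X → T.T1 X) → ∀ X, G.Smooth X → T.T1 X
  /-- fibres of sums of Albanese maps -/
  fibres : ∀ X, G.Surface X → ∃ (Q : SumFibre G X) (_ : NeZero Q.n) (D : Square X Q) (K : Push Q),
    Q.Good ∧ D.Good ∧ K.Good T
  /-- Hilbert squares of surfaces with `H¹ = 0` -/
  hilbert : ∀ X, G.Surface X → G.Reg X → ∃ (D : Hilbert G X) (K : HilbertPush D),
    D.Good ∧ K.Good T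

end Pool.Agent.Q226.SCP
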