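import Pool.Agent.Q226.SCP.Tate

set_option autoImplicit false

/-!
# The Tate conjecture for divisors over finite fields reduces to simply connected surfaces
-/

namespace Pool.Agent.Q226.SCP

variable {E : Type} [Field E] {G : GeoP E} {T : DivisorClasses G}

theorem tate_pow {X : G.Var} {c : G.H 2 X} {m : ℕ} (h : (G.Fr 2 X ^ m) c = ((G.q X : E) ^ m) • c)
    (k : ℕ) : (G.Fr 2 X ^ (m * k)) c = ((G.q X : E) ^ (m * k)) • c := by
  induction k with
  | zero => simp
  | succ k ih =>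
    rw [Nat.mul_succ, pow_add, Module.End.mul_apply, h, map_smul, ih, smul_smul, ← pow_add,
      add_comm m]

theorem GeoP.Comp.tate {X Y : G.Var} {w : G.H 2 X →ₗ[E] G.H 2 Y} (hw : G.Comp w) {c : G.H 2 X}
    (h : G.IsTate X c) : G.IsTate Y (w c) := by
  obtain ⟨a, b, ha, hb, hq, hc⟩ := hw
  obtain ⟨m, hm, h⟩ := h
  have hqE : ((G.q X : E)) ^ a = ((G.q Y : E)) ^ b := by
    exact_mod_cast congrArg (Nat.cast : ℕ → E) hq
  refine ⟨b * m, Nat.mul_pos hb hm, ?_⟩
  rw [← pow_comm hc, mul_comm a, tate_pow h, map_smul, mul_comm m a, pow_mul, hqE, ← pow_mul]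

theorem GeoP.Comp.of_tate {X Y : G.Var} {w : G.H 2 X →ₗ[E] G.H 2 Y} (hw : G.Comp w)
    (hi : Function.Injective w) {c : G.H 2 X} (h : G.IsTate Y (w c)) : G.IsTate X c := by
  obtain ⟨a, b, ha, hb, hq, hc⟩ := hw
  obtain ⟨m, hm, h⟩ := h
  have hqE : ((G.q X : E)) ^ a = ((G.q Y : E)) ^ b := by
    exact_mod_cast congrArg (Nat.cast : ℕ → E) hq
  refine ⟨a * m, Nat.mul_pos ha hm, hi ?_⟩
  rw [pow_comm hc, mul_comm b, tate_pow h, map_smul, mul_comm m b, pow_mul, ← hqE, ← pow_mul]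

theorem T1_of_fibre (hG : G.IsFrobenius) {X : G.Var} {Q : SumFibre G X} [NeZero Q.n]
    {D : Square X Q} {K : Push Q} (hD : D.Good) (hK : K.Good T) (hS : T.T1 Q.S) : T.T1 X := by
  classical
  intro c hc
  have hs : ∀ c, (∑ i, G.pull 2 (Q.x i)) c = Q.sum c := fun c => (Q.sum_eq c).symm
  obtain ⟨y, hy⟩ := hD.descends (Q.sum c) (fun t => by
    have e1 : G.res (Q.rot t) (Q.sum c) = ∑ i, G.res (Q.rot t) (G.res (Q.x i) c) :=
      map_sum (G.pull 2 (Q.rot t)) _ _
    rw [e1, Finset.sum_congr rfl (fun i _ => hD.rotates t i c)]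
    exact Fintype.sum_equiv (Equiv.addRight t) _ _ fun i => rfl)
  have h1 : G.IsTate Q.Z (Q.sum c) := by
    rw [← hs]
    exact (hG.comp Q.n Q.x).tate hc
  have h2 : G.IsTate Q.R (G.res Q.r (Q.sum c)) := (hG.pull Q.r).tate h1
  have h3 : G.IsTate Q.S y := by
    refine (hG.pull Q.π).of_tate hD.inj.injective ?_
    have : G.pull 2 Q.π y = G.res Q.r (Q.sum c) := hy
    rw [this]
    exact h2
  have h4 : G.res Q.r (Q.sum c) ∈ T.Alg Q.R := by
    rw [← hy]
    exact hK.pullπ y (hS y h3)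
  have h5 := hK.push _ h4
  obtain ⟨N, hN, hp⟩ := hK.proj
  have hb := fun i (hi : i ≠ 0) => hK.base i hi c hc
  choose! a t ha hat using hb
  have e1 : K.Ψ (G.res Q.r (Q.sum c)) = N • c +
      (G.res Q.f (∑ i ∈ Finset.univ.erase (0 : ZMod Q.n), a i) +
        (∑ i ∈ Finset.univ.erase (0 : ZMod Q.n), t i) • K.l) := by
    have e2 : K.Ψ (G.res Q.r (Q.sum c)) = ∑ i, K.Ψ (G.res Q.r (G.res (Q.x i) c)) := by
      have e3 : G.res Q.r (Q.sum c) = ∑ i, G.res Q.r (G.res (Q.x i) c) :=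
        map_sum (G.pull 2 Q.r) _ _
      rw [e3, map_sum]
    rw [e2, ← Finset.add_sum_erase _ _ (Finset.mem_univ (0 : ZMod Q.n)), hp]
    congr 1
    have e4 : G.res Q.f (∑ i ∈ Finset.univ.erase (0 : ZMod Q.n), a i) =
        ∑ i ∈ Finset.univ.erase (0 : ZMod Q.n), G.res Q.f (a i) := map_sum (G.pull 2 Q.f) _ _
    rw [e4, Finset.sum_smul, ← Finset.sum_add_distrib]
    exact Finset.sum_congr rfl fun i hi => hat i (Finset.mem_erase.1 hi).1
  rw [e1] at h5
  have h6 : G.res Q.f (∑ i ∈ Finset.univ.erase (0 : ZMod Q.n), a i) +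
      (∑ i ∈ Finset.univ.erase (0 : ZMod Q.n), t i) • K.l ∈ T.Alg X := by
    refine Submodule.add_mem _ (hK.pullf _ (Submodule.sum_mem _ fun i hi => ?_))
      (Submodule.smul_mem _ _ hK.ample)
    exact hK.tate _ (ha i (Finset.mem_erase.1 hi).1)
  have h7 := Submodule.sub_mem _ h5 h6
  rw [add_sub_cancel_right] at h7
  have h8 := Submodule.smul_mem _ N⁻¹ h7
  rwa [smul_smul, inv_mul_cancel₀ hN, one_smul] at h8

theorem T1_of_hilbert (hG : G.IsFrobenius) {X : G.Var} {D : Hilbert G X} {K : HilbertPush D}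
    (hD : D.Good) (hK : K.Good T) (hS : T.T1 D.S) : T.T1 X := by
  intro c hc
  have h0 : ∀ c, (∑ i, G.pull 2 ((fun i : ZMod 2 => if i = 0 then D.p₁ else D.p₂) i)) c =
      G.res D.p₁ c + G.res D.p₂ c := by
    intro c
    rw [LinearMap.sum_apply]
    exact Fin.sum_univ_two (fun i : Fin 2 => G.pull 2 (if i = 0 then D.p₁ else D.p₂) c)
  obtain ⟨y, hy⟩ := hD.descend c
  have h1 : G.IsTate D.P (G.res D.p₁ c + G.res D.p₂ c) := by
    rw [← h0]
    exact (hG.comp 2 (fun i : ZMod 2 => if i = 0 then D.p₁ else D.p₂)).tate hc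
  have h2 : G.IsTate D.X2 y := by
    refine (hG.pull D.ρ).of_tate hD.injρ.injective ?_
    have : G.pull 2 D.ρ y = G.res D.p₁ c + G.res D.p₂ c := hy
    rw [this]
    exact h1
  have h3 : G.IsTate D.S (G.res D.i (G.res D.κ y)) :=
    (hG.pull D.i).tate ((hG.pull D.κ).tate h2)
  obtain ⟨N, hN, hf⟩ := hK.formula
  obtain ⟨t, ht⟩ := hf c y hy
  have h4 := hK.push _ (hS _ h3)
  rw [ht] at h4
  have h5 := Submodule.sub_mem _ h4 (Submodule.smul_mem _ t hK.ample)
  rw [add_sub_cancel_right] at h5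
  have h6 := Submodule.smul_mem _ N⁻¹ h5
  rwa [smul_smul, inv_mul_cancel₀ hN, one_smul] at h6

/-- All Tate classes on all varieties are algebraic if this holds for simply connected surfaces. -/
theorem TateFacts.t1 [CharZero E] (F : TateFacts T) (h : ∀ S, G.Surface S → G.SC S → T.T1 S)
    (X : G.Var) (hX : G.Smooth X) : T.T1 X := by
  refine F.surfaces (fun X hX => ?_) X hX
  obtain ⟨Q, hn, D, K, hQ, hD, hK⟩ := F.fibres X hX
  obtain ⟨D', K', h', k'⟩ := F.hilbert Q.S hQ.surf hQ.reg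
  exact T1_of_fibre F.frob hD hK (T1_of_hilbert F.frob h' k' (h _ h'.surf h'.sc))

theorem gen_of_ssq {X : G.Var} (h : G.SSq X) (c : G.H 2 X)
    (hc : c ∈ (G.Fr 2 X).maxGenEigenspace (G.q X : E)) : G.Inv X c := by
  rw [Module.End.mem_maxGenEigenspace] at hc
  obtain ⟨k, hk⟩ := hc
  have key : ∀ (k : ℕ) (c : G.H 2 X),
      ((G.Fr 2 X - (G.q X : E) • (1 : Module.End E (G.H 2 X))) ^ k) c = 0 → G.D X c = 0 := by
    intro k
    induction k with
    | zero =>
      intro c hc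
      have : c = 0 := by simpa using hc
      rw [this]
      unfold GeoP.D
      simp
    | succ k ih =>
      intro c hc
      rw [pow_succ, Module.End.mul_apply] at hc
      exact h c (ih _ hc)
  exact sub_eq_zero.1 (key k c hk)

theorem TateFacts.conj (F : TateFacts T) {X : G.Var} (hX : G.Smooth X) (h : T.T1 X) :
    T.Conj X := by
  have h1 : ∀ c, G.Inv X c → c ∈ T.Div X := by
    intro c hc
    refine F.mean X c (h c ⟨1, one_pos, ?_⟩) hc
    rw [pow_one, pow_one]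
    exact hc
  have h2 := F.tate X hX h1
  refine ⟨fun c => ⟨fun hc => (F.div X c hc).1, h1 c⟩, ?_⟩
  have e : T.Div X = (G.Fr 2 X).maxGenEigenspace (G.q X : E) := by
    refine le_antisymm (fun c hc => ?_) (fun c hc => h1 c (gen_of_ssq h2 c hc))
    rw [Module.End.mem_maxGenEigenspace]
    refine ⟨1, ?_⟩
    rw [pow_one]
    exact sub_eq_zero.2 (F.div X c hc).1
  unfold GeoP.mult
  rw [e]

theorem TateFacts.t1_of_conj (F : TateFacts T) (h : ∀ S, G.Surface S → G.SC S → T.Conj S)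
    (S : G.Var) (hS : G.Surface S) (hs : G.SC S) : T.T1 S := by
  intro c hc
  obtain ⟨m, hm, hc⟩ := hc
  obtain ⟨X', g, h1, h2, h3, h4, h5, h6⟩ := F.base S m hm
  have h7 := h X' ⟨h1 hS.1, by rw [h3, hS.2]⟩ (h2 hs)
  refine h5 c (F.div X' _ ((h7.1 _).2 ?_)).2
  unfold GeoP.Inv
  rw [h6, hc, h4, Nat.cast_pow]
  exact map_smul (G.pull 2 g) _ _

/-- **Theorem.** -/
theorem TateFacts.conj_iff [CharZero E] (F : TateFacts T) :
    (∀ X, G.Smooth X → T.Conj X) ↔ ∀ S, G.Surface S → G.SC S → T.Conj S :=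
  ⟨fun h S hS _ => h S hS.1,
    fun h X hX => F.conj hX (F.t1 (fun S hS hs => F.t1_of_conj h S hS hs) X hX)⟩

end Pool.Agent.Q226.SCP
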